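import Pool.Agent.Helper6.GP.Goals

/-! # Packet GP-GOODG (MP_75608d_al): one good tuple -/

set_option linter.unusedVariables false

namespace Pool.Agent.Helper67.GP.GOODG

open Matrix Equiv Filter Topology Pool.Agent.Helper15.An
open scoped ComplexOrder
open Pool.Agent.Helper3.AK (lazyLaw)

theorem ev_log (c η : ℝ) (hc : 0 < c) (hη : 0 < η) :
    ∀ᶠ n : ℕ in atTop, Real.log n ≤ η * (n : ℝ) ^ c := by
  have h := (isLittleO_log_rpow_atTop hc).bound hη
  have h2 := tendsto_natCast_atTop_atTop (R := ℝ) |>.eventually h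
  filter_upwards [h2] with n hn
  rw [Real.norm_eq_abs, Real.norm_eq_abs,
    abs_of_nonneg (Real.rpow_nonneg (Nat.cast_nonneg n) c)] at hn
  exact (le_abs_self _).trans hn

theorem ev_const (c K : ℝ) (hc : 0 < c) : ∀ᶠ n : ℕ in atTop, K ≤ (n : ℝ) ^ c :=
  ((tendsto_rpow_atTop hc).comp (tendsto_natCast_atTop_atTop (R := ℝ))).eventually_ge_atTop K

/-- `2 √(t η) ≤ 1/8` from a bound on `t η` -/
theorem sqrt_le {M y : ℝ} (hM : 0 ≤ M) (h : M ^ 2 * y ≤ 1 / 64) : M * √y ≤ 1 / 8 := by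
  have h1 : M * √y = √(M ^ 2 * y) := by
    rw [Real.sqrt_mul (by positivity), Real.sqrt_sq hM]
  rw [h1]
  have h2 : (1 / 8 : ℝ) = √(1 / 64) := by
    rw [show (1 / 64 : ℝ) = (1 / 8) ^ 2 by norm_num, Real.sqrt_sq (by norm_num)]
  rw [h2]
  exact Real.sqrt_le_sqrt h

theorem pow_desc {n S t : ℕ} {ε : ℝ} (hn : 2 ≤ n) (hS : 1 ≤ S) (hε : 0 < ε) (hε1 : ε ≤ 1)
    (ht : 8 * S * Real.log n / ε ≤ t) :
    (1 - ε / 2) ^ t * (n.descFactorial S : ℝ) ≤ 1 / 8 := by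
  have hn0 : (0 : ℝ) < n := by positivity
  have hlog : 0 < Real.log n := Real.log_pos (by exact_mod_cast (by omega : 1 < n))
  have hS1 : (1 : ℝ) ≤ S := by exact_mod_cast hS
  have h1 : (1 - ε / 2) ^ t ≤ Real.exp (-(4 * S * Real.log n)) := by
    have h2 : (1 - ε / 2) ^ t ≤ (Real.exp (-(ε / 2))) ^ t := by
      apply pow_le_pow_left₀ (by linarith)
      have := Real.add_one_le_exp (-(ε / 2))
      linarith
    refine h2.trans ?_
    rw [← Real.exp_nat_mul]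
    apply Real.exp_le_exp.mpr
    rw [div_le_iff₀ hε] at ht
    nlinarith
  have h2 : (n.descFactorial S : ℝ) ≤ Real.exp (S * Real.log n) := by
    have h3 : (n.descFactorial S : ℝ) ≤ (n : ℝ) ^ S := by
      exact_mod_cast Nat.descFactorial_le_pow n S
    refine h3.trans (le_of_eq ?_)
    rw [Real.exp_nat_mul, Real.exp_log hn0]
  have h3 : (1 - ε / 2) ^ t * (n.descFactorial S : ℝ) ≤
      Real.exp (-(4 * S * Real.log n)) * Real.exp (S * Real.log n) :=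
    mul_le_mul h1 h2 (by positivity) (Real.exp_nonneg _)
  refine h3.trans ?_
  rw [← Real.exp_add]
  have h4 : -(4 * S * Real.log n) + S * Real.log n ≤ -(3 * Real.log n) := by nlinarith
  refine (Real.exp_le_exp.mpr h4).trans ?_
  have h5 : Real.exp (-(3 * Real.log n)) = ((n : ℝ) ^ 3)⁻¹ := by
    rw [Real.exp_neg, show (3 : ℝ) * Real.log n = ((3 : ℕ) : ℝ) * Real.log n by norm_num,
      Real.exp_nat_mul, Real.exp_log hn0]
  rw [h5, inv_eq_one_div]
  apply one_div_le_one_div_of_le (by norm_num)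
  have h6 : (2 : ℝ) ≤ n := by exact_mod_cast hn
  have h7 : (2 : ℝ) ^ 3 ≤ (n : ℝ) ^ 3 := pow_le_pow_left₀ (by norm_num) h6 3
  linarith

theorem thm (htgr : Pool.Agent.Helper6.GP.S_TGR) (hratio : Pool.Agent.Helper6.GP.S_RATIO)
    (hent : Pool.Agent.Helper6.GP.S_ENT) (hdetg : Pool.Agent.Helper6.GP.S_DETG) :
    Pool.Agent.Helper6.GP.S_GOODG := by
  intro k α β ε₀ ε e δ hk hα0 hα1 hβ0 hβ1 hε₀ hε₀1 hε hε1 he heβ heδ hδ
  have hc1 : 0 < δ - 2 * e := by linarith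
  have hηc : 0 < (2 - α) + δ := by linarith
  filter_upwards [hratio e he (by linarith), ev_const (1 - β) 3 (by linarith),
    ev_const (β - 1 / 2 - e) 2 (by linarith), ev_const ((2 - α) + δ) (1 / ε) hηc,
    ev_const α (k + 1) hα0, ev_log (δ - 2 * e) (ε₀ / 128000) hc1 (by positivity),
    ev_log δ (ε / 4352) hδ (by positivity), eventually_ge_atTop 3]
    with n hrat h1 h2 h3 h4 h5 h6 hn3
  intro M S₀ x hM hS1 hS2 hgap hhits F i hi _
  have hn1 : (1 : ℝ) ≤ n := by exact_mod_cast (by omega : 1 ≤ n)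
  have hn0 : (0 : ℝ) < n := by linarith
  have hlog : 1 ≤ Real.log n := by
    rw [Real.le_log_iff_exp_le hn0]
    have h7 := Real.exp_one_lt_d9
    have h8 : (3 : ℝ) ≤ n := by exact_mod_cast hn3
    linarith
  set η : ℝ := (n : ℝ) ^ (-(2 - α) - δ) with hη
  have hη0 : 0 < η := Real.rpow_pos_of_pos hn0 _
  -- powers
  have hX1 : 1 ≤ (n : ℝ) ^ (1 / 2 + e) := Real.one_le_rpow hn1 (by linarith)
  have hβX : 2 * (n : ℝ) ^ (1 / 2 + e) ≤ (n : ℝ) ^ β := by
    have h7 : (n : ℝ) ^ β = (n : ℝ) ^ (β - 1 / 2 - e) * (n : ℝ) ^ (1 / 2 + e) := by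
      rw [← Real.rpow_add hn0]; congr 1; ring
    rw [h7]
    exact mul_le_mul_of_nonneg_right h2 (by linarith)
  have hβn : (n : ℝ) ^ β + 2 ≤ n := by
    have h7 : (n : ℝ) = (n : ℝ) ^ (1 - β) * (n : ℝ) ^ β := by
      rw [← Real.rpow_add hn0, show 1 - β + β = (1 : ℝ) by ring, Real.rpow_one]
    have h8 : 3 * (n : ℝ) ^ β ≤ (n : ℝ) ^ (1 - β) * (n : ℝ) ^ β :=
      mul_le_mul_of_nonneg_right h1 (Real.rpow_nonneg hn0.le _)
    have h9 : (1 : ℝ) ≤ (n : ℝ) ^ β := Real.one_le_rpow hn1 (by linarith)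
    linarith
  set m : ℕ := ⌊(n : ℝ) ^ β⌋₊ with hm
  have hmle : (m : ℝ) ≤ (n : ℝ) ^ β := Nat.floor_le (Real.rpow_nonneg hn0.le _)
  have hmge : (n : ℝ) ^ β < m + 1 := Nat.lt_floor_add_one _
  have hm2 : m + 2 ≤ n := by
    have h7 : ((m + 2 : ℕ) : ℝ) ≤ n := by push_cast; linarith
    exact_mod_cast h7
  have hηε : η ≤ ε := by
    have h7 : η = ((n : ℝ) ^ ((2 - α) + δ))⁻¹ := by
      rw [hη, ← Real.rpow_neg hn0.le]; congr 1; ring
    rw [h7]
    rw [div_le_iff₀ hε] at h3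
    rw [inv_le_comm₀ (Real.rpow_pos_of_pos hn0 _) hε, inv_eq_one_div, div_le_iff₀ hε]
    exact h3
  by_cases hfix : HasFix (F.ρ i) (stab n m)
  · have h7 := htgr n (k + 1) m (F.D i) x ε (by omega) hm2 (hgap m hmle) (F.ρ i) (F.irr i) hi hfix
    have h8 : (1 - η) • (1 : Matrix (Fin (F.D i)) (Fin (F.D i)) ℂ) - wop (F.ρ i) (tupW x) =
        ((1 - ε) • (1 : Matrix (Fin (F.D i)) (Fin (F.D i)) ℂ) - wop (F.ρ i) (tupW x)) +
          (ε - η) • (1 : Matrix (Fin (F.D i)) (Fin (F.D i)) ℂ) := by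
      rw [show (1 - η) = (1 - ε) + (ε - η) by ring, add_smul]
      abel
    rw [h8]
    exact h7.add (PosSemidef.one.smul (by linarith))
  · -- the high levels
    set t : ℕ := ⌈4 * (n : ℝ) ^ α * Real.log n / ε₀⌉₊ with ht
    set t₂ : ℕ := ⌈8 * (S₀ : ℝ) * Real.log n / ε⌉₊ with ht₂
    have hα1' : 1 ≤ (n : ℝ) ^ α := Real.one_le_rpow hn1 hα0.le
    have hS1' : (1 : ℝ) ≤ S₀ := hX1.trans hS1
    have hS₀ : 1 ≤ S₀ := by exact_mod_cast hS1'
    have hAge : (n : ℝ) ^ α ≤ (n : ℝ) ^ α * Real.log n / ε₀ := by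
      rw [le_div_iff₀ hε₀]
      have h7 : (n : ℝ) ^ α * ε₀ ≤ (n : ℝ) ^ α * 1 := mul_le_mul_of_nonneg_left hε₀1 (by linarith)
      have h8 : (n : ℝ) ^ α * 1 ≤ (n : ℝ) ^ α * Real.log n :=
        mul_le_mul_of_nonneg_left hlog (by linarith)
      linarith
    have hA : 4 * (n : ℝ) ^ α * Real.log n / ε₀ = 4 * ((n : ℝ) ^ α * Real.log n / ε₀) := by ring
    have htle : (t : ℝ) ≤ 5 * ((n : ℝ) ^ α * Real.log n / ε₀) := by
      have h7 : (t : ℝ) < 4 * (n : ℝ) ^ α * Real.log n / ε₀ + 1 :=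
        Nat.ceil_lt_add_one (by positivity)
      rw [hA] at h7
      linarith
    have htge : k + 1 ≤ t := by
      have h7 : 4 * (n : ℝ) ^ α * Real.log n / ε₀ ≤ t := Nat.le_ceil _
      rw [hA] at h7
      have h8 : ((k + 1 : ℕ) : ℝ) ≤ t := by push_cast; linarith
      exact_mod_cast h8
    have hBge : (1 : ℝ) ≤ (n : ℝ) ^ (1 / 2 + e) * Real.log n / ε := by
      rw [le_div_iff₀ hε]
      nlinarith
    have ht₂le : (t₂ : ℝ) ≤ 17 * ((n : ℝ) ^ (1 / 2 + e) * Real.log n / ε) := by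
      have h7 : (t₂ : ℝ) < 8 * (S₀ : ℝ) * Real.log n / ε + 1 :=
        Nat.ceil_lt_add_one (by positivity)
      have h8 : 8 * (S₀ : ℝ) * Real.log n / ε ≤
          16 * ((n : ℝ) ^ (1 / 2 + e) * Real.log n / ε) := by
        rw [show 16 * ((n : ℝ) ^ (1 / 2 + e) * Real.log n / ε) =
          8 * (2 * (n : ℝ) ^ (1 / 2 + e)) * Real.log n / ε by ring]
        gcongr
      linarith
    -- the class
    have hSβ : (S₀ : ℝ) ≤ (n : ℝ) ^ β := hS2.trans hβX
    have hSn : S₀ ≤ n := by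
      have h7 : (S₀ : ℝ) ≤ n := by linarith
      exact_mod_cast h7
    refine hdetg n (F.D i) k t t₂ M S₀ (F.ρ i) x η ((1 - ε / 2) ^ t₂) (F.irr i) hk htge hη0
      ?_ ?_ (pow_desc (by omega) hS₀ hε hε1 (Nat.le_ceil _)) hhits ?_
      (hent n (k + 1) S₀ t₂ x ε (by omega) hSn hε hε1 (hgap S₀ hSβ))
    · -- 10 M √(t η)
      have h7 : (10 * (M : ℝ)) * √((t : ℝ) * η) ≤ 1 / 8 := by
        apply sqrt_le (by positivity)
        have hM2 : (M : ℝ) ^ 2 ≤ (2 * (n : ℝ) ^ (1 - α + e)) ^ 2 :=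
          pow_le_pow_left₀ (Nat.cast_nonneg M) hM 2
        have h8 : (10 * (M : ℝ)) ^ 2 * ((t : ℝ) * η) ≤
            (10 * (2 * (n : ℝ) ^ (1 - α + e))) ^ 2 *
              ((5 * ((n : ℝ) ^ α * Real.log n / ε₀)) * η) := by
          gcongr
        refine h8.trans ?_
        have h9 : (10 * (2 * (n : ℝ) ^ (1 - α + e))) ^ 2 *
              ((5 * ((n : ℝ) ^ α * Real.log n / ε₀)) * η) =
            2000 / ε₀ * Real.log n * (((n : ℝ) ^ (1 - α + e)) ^ 2 * (n : ℝ) ^ α * η) := by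
          ring
        rw [h9]
        have h10 : ((n : ℝ) ^ (1 - α + e)) ^ 2 * (n : ℝ) ^ α * η =
            ((n : ℝ) ^ (δ - 2 * e))⁻¹ := by
          rw [hη, ← Real.rpow_natCast, ← Real.rpow_mul hn0.le, ← Real.rpow_add hn0,
            ← Real.rpow_add hn0, ← Real.rpow_neg hn0.le]
          congr 1
          push_cast
          ring
        rw [h10]
        have h11 : 0 < (n : ℝ) ^ (δ - 2 * e) := Real.rpow_pos_of_pos hn0 _
        rw [← div_eq_mul_inv, div_le_iff₀ h11]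
        calc 2000 / ε₀ * Real.log n ≤ 2000 / ε₀ * (ε₀ / 128000 * (n : ℝ) ^ (δ - 2 * e)) := by
              gcongr
          _ = 1 / 64 * (n : ℝ) ^ (δ - 2 * e) := by
              field_simp
              norm_num
      exact h7
    · apply sqrt_le (by norm_num)
      have h8 : (2 : ℝ) ^ 2 * ((t₂ : ℝ) * η) ≤
          (2 : ℝ) ^ 2 * ((17 * ((n : ℝ) ^ (1 / 2 + e) * Real.log n / ε)) * η) := by
        gcongr
      refine h8.trans ?_
      have h9 : (2 : ℝ) ^ 2 * ((17 * ((n : ℝ) ^ (1 / 2 + e) * Real.log n / ε)) * η) =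
          68 / ε * Real.log n * ((n : ℝ) ^ (1 / 2 + e) * η) := by ring
      rw [h9]
      have h10 : (n : ℝ) ^ (1 / 2 + e) * η ≤ ((n : ℝ) ^ δ)⁻¹ := by
        rw [hη, ← Real.rpow_add hn0, ← Real.rpow_neg hn0.le]
        apply Real.rpow_le_rpow_of_exponent_le hn1
        linarith
      have h11 : 0 < (n : ℝ) ^ δ := Real.rpow_pos_of_pos hn0 _
      have h12 : 68 / ε * Real.log n * ((n : ℝ) ^ (1 / 2 + e) * η) ≤
          68 / ε * Real.log n * ((n : ℝ) ^ δ)⁻¹ := by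
        gcongr
      refine h12.trans ?_
      rw [← div_eq_mul_inv, div_le_iff₀ h11]
      calc 68 / ε * Real.log n ≤ 68 / ε * (ε / 4352 * (n : ℝ) ^ δ) := by gcongr
        _ = 1 / 64 * (n : ℝ) ^ δ := by
            field_simp
            norm_num
    · intro c hc
      refine hrat (F.D i) m (F.ρ i) (F.irr i).unit hfix ?_ c ?_
      · linarith
      · rw [hc]; exact hS1

end Pool.Agent.Helper67.GP.GOODG
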